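import Mathlib
import Pool.Agent.Lib.MP_f48e0c_pr.Defs
import Pool.Agent.Lib.MP_f48e0c_pr.Proof

namespace Pool.Agent.Results.MP_f48e0c_pr.FiniteFixedPoints

open Pool.Agent.Lib.MP_f48e0c_pr

/-- If the generating function of a multitype Galton-Watson process with countably many types has
only finitely many fixed points in the cube, then the set of fixed points is exactly the set of
extinction probability vectors. -/
theorem result {X : Type*} [Countable X] (μ : X → PMF (X →₀ ℕ)) (hfin : (fixedPoints μ).Finite) :
    extinctionVectors μ = fixedPoints μ := by
  ext s
  constructor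
  · rintro ⟨A, rfl⟩
    exact extinctionProb_fixed μ A
  · exact fun hs => fixed_mem_ext hfin hs

end Pool.Agent.Results.MP_f48e0c_pr.FiniteFixedPoints
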